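import Pool.Agent.H111R2.DataXF
import Pool.Agent.Run7.h111.Asym
import Pool.Agent.Run7.h111.Lift

set_option autoImplicit false

/-!
MP_79fcf0_nt: `N(p ^ n) ≥ 1.019 ln p` for all large primes `p ≡ 1 mod 4` and all `n ≥ 1`.
-/

namespace Pool.Agent.Results.MP_79fcf0_nt.LogLowerBound

/-- `r` is a quadratic residue modulo `q`: it is prime to `q` and a square modulo `q`. -/
def IsQuadRes (q : ℕ) (r : ZMod q) : Prop := IsUnit r ∧ IsSquare r

/-- A set of residue classes modulo `q` is admissible if its elements and the differences of any two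
distinct elements are quadratic residues modulo `q`. -/
def Admissible (q : ℕ) (S : Finset (ZMod q)) : Prop :=
  (∀ r ∈ S, IsQuadRes q r) ∧ ∀ r ∈ S, ∀ r' ∈ S, r ≠ r' → IsQuadRes q (r - r')

/-- `N q` is the largest size of an admissible set modulo `q`. -/
noncomputable def N (q : ℕ) : ℕ := sSup {k | ∃ S : Finset (ZMod q), Admissible q S ∧ S.card = k}

open Run7.h111 Pool.Agent.H111R2

/-- the Ramsey line with coefficients `0.111095453` and `1.961931` -/
lemma rline : ∃ C : ℝ, 0 ≤ C ∧ RLine C (0.111095453 : ℝ) (1.961931 : ℝ) := by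
  obtain ⟨C, hC, h⟩ := main_of_check3 mbX maX cellsX checkX
  refine ⟨C * Real.exp (1.961931 + 0.111095453), by positivity, ?_⟩
  intro V _ G S m l h1 h2
  have hmem : ((111095453, 1961931000) : ℕ × ℕ) ∈ claims3 cellsX := by
    rw [clX_eq]
    decide +kernel
  have h3 := (h (m + 1) (l + 1) G S h1 h2 _ hmem).2
  have h4 : Bd C (1961931000, 111095453) (m + 1) (l + 1)
      = C * Real.exp (1.961931 + 0.111095453) * Real.exp (1.961931 * m + 0.111095453 * l) := by
    rw [mul_assoc, ← Real.exp_add]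
    unfold Bd
    congr 2
    push_cast
    norm_num
    ring
  change (S.card : ℝ) + 1 ≤ Bd C (1961931000, 111095453) (m + 1) (l + 1) at h3
  rw [h4] at h3
  linarith

lemma exp_a_upper : Real.exp (1.961931 : ℝ) ≤ 7.1132 := by
  have h1 := Real.exp_one_lt_d9
  have h2 := Real.exp_bound' (x := 0.961931) (by norm_num) (by norm_num) (n := 10) (by norm_num)
  have h3 : Real.exp (1.961931 : ℝ) = Real.exp 1 * Real.exp 0.961931 := by
    rw [← Real.exp_add]
    norm_num
  have h4 : Real.exp (0.961931 : ℝ) ≤ 2.61675 := by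
    refine h2.trans ?_
    simp only [Finset.sum_range_succ, Finset.sum_range_zero, Nat.factorial]
    norm_num
  rw [h3]
  calc Real.exp 1 * Real.exp 0.961931 ≤ 2.7182818286 * 2.61675 :=
        mul_le_mul h1.le h4 (Real.exp_pos _).le (by norm_num)
    _ ≤ 7.1132 := by norm_num

lemma exp_lower : (6.1132 : ℝ) ≤ Real.exp (1.8105 : ℝ) := by
  have h1 := Real.exp_one_gt_d9
  have h3 : Real.exp (1.8105 : ℝ) = Real.exp 1 * Real.exp 0.8105 := by
    rw [← Real.exp_add]
    norm_num
  have h2 := Real.sum_le_exp_of_nonneg (x := 0.8105) (by norm_num) 9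
  have h4 : (2.24893 : ℝ) ≤ Real.exp 0.8105 := by
    refine le_trans ?_ h2
    simp only [Finset.sum_range_succ, Finset.sum_range_zero, Nat.factorial]
    norm_num
  rw [h3]
  calc (6.1132 : ℝ) ≤ 2.7182818283 * 2.24893 := by norm_num
    _ ≤ _ := mul_le_mul h1.le h4 (by norm_num) (Real.exp_pos _).le

lemma log_E_le : Real.log (Real.exp 1.961931 - 1) ≤ 1.8105 := by
  have h1 := exp_a_upper
  have h2 := exp_lower
  have h3 : (1 : ℝ) < Real.exp 1.961931 := Real.one_lt_exp_iff.mpr (by norm_num)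
  rw [Real.log_le_iff_le_exp (by linarith)]
  linarith

lemma log_ratio_ge : (2.914 : ℝ) ≤ Real.log ((1 - 0.05145) / 0.05145) := by
  rw [Real.le_log_iff_exp_le (by norm_num)]
  have h1 := Real.exp_one_lt_d9
  have h2 := Real.exp_bound' (x := 0.914) (by norm_num) (by norm_num) (n := 10) (by norm_num)
  have h3 : Real.exp (2.914 : ℝ) = Real.exp 1 * Real.exp 1 * Real.exp 0.914 := by
    rw [← Real.exp_add, ← Real.exp_add]
    norm_num
  have h4 : Real.exp (0.914 : ℝ) ≤ 2.49428 := by
    refine h2.trans ?_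
    simp only [Finset.sum_range_succ, Finset.sum_range_zero, Nat.factorial]
    norm_num
  have h0 := Real.exp_pos 1
  have h5 : Real.exp 1 * Real.exp 1 ≤ 2.7182818286 * 2.7182818286 :=
    mul_le_mul h1.le h1.le h0.le (by norm_num)
  rw [h3]
  calc Real.exp 1 * Real.exp 1 * Real.exp 0.914 ≤ 2.7182818286 * 2.7182818286 * 2.49428 :=
        mul_le_mul h5 h4 (Real.exp_pos _).le (by norm_num)
    _ ≤ _ := by norm_num

lemma neg_log_ge : (0.0528 : ℝ) ≤ -Real.log (1 - 0.05145) := by
  rw [← Real.log_inv, Real.le_log_iff_exp_le (by norm_num)]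
  have h2 := Real.exp_bound' (x := 0.0528) (by norm_num) (by norm_num) (n := 4) (by norm_num)
  refine h2.trans ?_
  simp only [Finset.sum_range_succ, Finset.sum_range_zero, Nat.factorial]
  norm_num

/-- **Lower bound for `N`.** For all sufficiently large primes `p ≡ 1 mod 4` and all `n ≥ 1`,
`N(p ^ n) ≥ 1.019 ln p`. -/
theorem result : ∃ P : ℕ, ∀ p : ℕ, p.Prime → p % 4 = 1 → P ≤ p → ∀ n : ℕ, 1 ≤ n →
    1.019 * Real.log p ≤ (N (p ^ n) : ℝ) := by
  obtain ⟨C, hC, hR⟩ := rline
  have ha : (2 : ℝ) ≤ Real.exp 1.961931 := by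
    have := Real.add_one_le_exp (1.961931 : ℝ)
    linarith
  obtain ⟨P, hP⟩ := clique_lower hR hC ha (x := 0.05145) (t := 1 / 1.019) (by norm_num)
    (by norm_num) (by norm_num)
    (by
      have h1 := Real.log_two_lt_d9
      have h2 := log_ratio_ge
      have h3 := neg_log_ge
      have h4 : (0.4906 : ℝ) ≤ 1 / 1.019 / 2 := by norm_num
      have h5 : (1 : ℝ) / 1.019 / 2 ≥ 0.490677 := by norm_num
      linarith)
    (by
      have h1 := Real.log_two_lt_d9
      have h2 := log_E_le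
      have h3 : (0.981354 : ℝ) ≤ 1 / 1.019 := by norm_num
      linarith)
  refine ⟨P, ?_⟩
  intro p hp h4 hPp n hn
  have : Fact p.Prime := ⟨hp⟩
  obtain ⟨A, hA⟩ := exists_maxCl (p := p) h4
  have h1 := hP p h4 hPp A hA
  obtain ⟨S, hS1, hS2, hS3⟩ := exists_admissible h4 hn hA.cl hA.pos
  have h2 : (1.019 : ℝ) * Real.log p ≤ (A.card : ℝ) - 1 := by
    have : (1 : ℝ) / 1.019 * ((A.card : ℝ) - 1) * 1.019 = (A.card : ℝ) - 1 := by
      field_simp
    linarith
  have h3 : (S.card : ℝ) = (A.card : ℝ) - 1 := by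
    rw [hS1, Nat.cast_sub hA.pos]
    norm_num
  have h5 : S.card ≤ N (p ^ n) := by
    apply le_csSup
    · refine ⟨p ^ n, ?_⟩
      rintro k ⟨T, -, rfl⟩
      have : NeZero (p ^ n) := ⟨pow_ne_zero n hp.ne_zero⟩
      have := Finset.card_le_univ T
      rwa [ZMod.card] at this
    · exact ⟨S, ⟨hS2, hS3⟩, rfl⟩
  have h6 : (S.card : ℝ) ≤ (N (p ^ n) : ℝ) := by exact_mod_cast h5
  linarith

end Pool.Agent.Results.MP_79fcf0_nt.LogLowerBound
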