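import Pool.Agent.Run7.h111.TAsym

set_option autoImplicit false

/-!
MP_79fcf0_nt: better lower bounds for `N(p ^ n)` in large classes of primes, by torsion
progressions.
-/

namespace Pool.Agent.Results.MP_79fcf0_nt.TorsionProgressions

open Filter Topology

/-- `r` is a quadratic residue modulo `q`: it is prime to `q` and a square modulo `q`. -/
def IsQuadRes (q : ℕ) (r : ZMod q) : Prop := IsUnit r ∧ IsSquare r

/-- A set of residue classes modulo `q` is admissible if its elements and the differences of any two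
distinct elements are quadratic residues modulo `q`. -/
def Admissible (q : ℕ) (S : Finset (ZMod q)) : Prop :=
  (∀ r ∈ S, IsQuadRes q r) ∧ ∀ r ∈ S, ∀ r' ∈ S, r ≠ r' → IsQuadRes q (r - r')

/-- `N q` is the largest size of an admissible set modulo `q`. -/
noncomputable def N (q : ℕ) : ℕ := sSup {k | ∃ S : Finset (ZMod q), Admissible q S ∧ S.card = k}

/-- The class of the primes `p` with `p ≡ 1 mod 4` and `p ≡ 1 mod M` for which `1 - h` is a square
modulo `p` for every `h` with `h ^ M = 1` modulo `p`. -/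
def TorsionPrime (M p : ℕ) : Prop :=
  p.Prime ∧ p % 4 = 1 ∧ M ∣ p - 1 ∧ ∀ h : ZMod p, h ^ M = 1 → IsSquare (1 - h)

open Run7.h111

lemma euler_tendsto : Tendsto (fun n : ℕ => (jf (∏ p ∈ Nat.primesBelow n, p))⁻¹) atTop
    (𝓝 (Real.pi ^ 2 / 6)) := by
  have h1 := riemannZeta_eulerProduct (s := 2) (by norm_num)
  rw [riemannZeta_two] at h1
  have h2 := (Complex.continuous_re.tendsto _).comp h1
  have h3 : (((Real.pi : ℂ) ^ 2 / 6)).re = Real.pi ^ 2 / 6 := by
    have : ((Real.pi : ℂ) ^ 2 / 6) = ((Real.pi ^ 2 / 6 : ℝ) : ℂ) := by push_cast; rfl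
    rw [this, Complex.ofReal_re]
  rw [h3] at h2
  refine h2.congr ?_
  intro n
  simp only [Function.comp]
  have h4 : ∏ p ∈ Nat.primesBelow n, (1 - (p : ℂ) ^ (-(2 : ℂ)))⁻¹ =
      ((∏ p ∈ Nat.primesBelow n, (1 - 1 / (p : ℝ) ^ 2)⁻¹ : ℝ) : ℂ) := by
    push_cast
    apply Finset.prod_congr rfl
    intro p _
    congr 2
    rw [Complex.cpow_neg, one_div]
    congr 1
    exact_mod_cast Complex.cpow_natCast (p : ℂ) 2
  rw [h4, Complex.ofReal_re]
  unfold jf
  rw [Nat.primeFactors_prod (fun p hp => Nat.prime_of_mem_primesBelow hp), Finset.prod_inv_distrib]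

/-- **Torsion progressions.** Let `M ≥ 1` and let `p` run over the primes `p ≡ 1 mod 4` with
`p ≡ 1 mod M` for which `1 - h` is a square modulo `p` for all `M`-th roots of unity `h`. The sum
of the reciprocals of these primes diverges, and
`N(p^n) ≥ (1 - ε) (∏_{l ∣ M} (1 - 1/l^2)⁻¹) (log p / (2 log 2))` for all large `p` in the class.
The constants of these bounds come arbitrarily close to `π^2/12` (times `log_2 p`). -/
theorem result :
    (∀ M : ℕ, 1 ≤ M →
      ¬ Summable (fun p : {p : ℕ | TorsionPrime M p} => (1 : ℝ) / ((p : ℕ) : ℝ)) ∧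
      ∀ ε : ℝ, 0 < ε → ∃ P : ℕ, ∀ p : ℕ, TorsionPrime M p → P ≤ p → ∀ n : ℕ, 1 ≤ n →
        (1 - ε) * (∏ l ∈ M.primeFactors, (1 - 1 / (l : ℝ) ^ 2))⁻¹ *
          (Real.log p / (2 * Real.log 2)) ≤ (N (p ^ n) : ℝ)) ∧
    ∀ c : ℝ, c < Real.pi ^ 2 / 12 → ∃ M : ℕ, 1 ≤ M ∧ ∃ P : ℕ, ∀ p : ℕ, TorsionPrime M p →
      P ≤ p → ∀ n : ℕ, 1 ≤ n → c * (Real.log p / Real.log 2) ≤ (N (p ^ n) : ℝ) := by
  have hmain : ∀ M : ℕ, 1 ≤ M → ∀ ε : ℝ, 0 < ε → ∃ P : ℕ, ∀ p : ℕ, TorsionPrime M p → P ≤ p →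
      ∀ n : ℕ, 1 ≤ n → (1 - ε) * (jf M)⁻¹ * (Real.log p / (2 * Real.log 2)) ≤ (N (p ^ n) : ℝ) := by
    intro M hM ε hε
    rcases lt_or_ge ε 1 with hε1 | hε1
    · obtain ⟨P, hP⟩ := torsion_asym (N := M) hM hε hε1
      refine ⟨P, ?_⟩
      intro p hcls hPp n hn
      have hfact : Fact p.Prime := ⟨hcls.1⟩
      obtain ⟨A, hA1, hA2, hA3⟩ := hP p hcls hPp hfact hcls.2.1
      obtain ⟨S, hS1, hS2, hS3⟩ := exists_admissible hcls.2.1 hn hA1 hA2
      have h3 : (S.card : ℝ) = (A.card : ℝ) - 1 := by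
        rw [hS1, Nat.cast_sub hA2]
        norm_num
      have h5 : S.card ≤ N (p ^ n) := by
        apply le_csSup
        · refine ⟨p ^ n, ?_⟩
          rintro k ⟨T, -, rfl⟩
          have : NeZero (p ^ n) := ⟨pow_ne_zero n hcls.1.ne_zero⟩
          have := Finset.card_le_univ T
          rwa [ZMod.card] at this
        · exact ⟨S, ⟨hS2, hS3⟩, rfl⟩
      have h6 : (S.card : ℝ) ≤ (N (p ^ n) : ℝ) := by exact_mod_cast h5
      linarith
    · refine ⟨0, ?_⟩
      intro p hcls _ n _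
      have h1 : (1 - ε) * (jf M)⁻¹ * (Real.log p / (2 * Real.log 2)) ≤ 0 := by
        have h2 := jf_pos M
        have h3 : 0 < Real.log 2 := Real.log_pos (by norm_num)
        have h4 : 0 ≤ Real.log p := Real.log_nonneg (by exact_mod_cast hcls.1.one_lt.le)
        have h5 : 0 ≤ (jf M)⁻¹ * (Real.log p / (2 * Real.log 2)) := by positivity
        nlinarith
      exact h1.trans (Nat.cast_nonneg _)
  refine ⟨fun M hM => ⟨tcls_not_summable hM, hmain M hM⟩, ?_⟩
  intro c hc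
  have hl2 : 0 < Real.log 2 := Real.log_pos (by norm_num)
  -- choose `M` with `2 c < (jf M)⁻¹`
  have h1 : ∀ᶠ n : ℕ in atTop, max (2 * c) 0 < (jf (∏ p ∈ Nat.primesBelow n, p))⁻¹ :=
    euler_tendsto.eventually (lt_mem_nhds (by
      rw [max_lt_iff]
      constructor
      · linarith
      · have := Real.pi_pos
        positivity))
  obtain ⟨m, hm⟩ := h1.exists
  set M : ℕ := ∏ p ∈ Nat.primesBelow m, p with hM
  have hM1 : 1 ≤ M := by
    rw [hM]
    exact Nat.succ_le_of_lt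
      (Finset.prod_pos (fun p hp => (Nat.prime_of_mem_primesBelow hp).pos))
  set J : ℝ := (jf M)⁻¹ with hJ
  have hJ0 : 0 < J := inv_pos.2 (jf_pos M)
  have hmax := hm
  rw [max_lt_iff] at hmax
  set ε : ℝ := (J - 2 * c) / J with hε
  have hε0 : 0 < ε := div_pos (by linarith) hJ0
  obtain ⟨P, hP⟩ := hmain M hM1 ε hε0
  refine ⟨M, hM1, P, ?_⟩
  intro p hcls hPp n hn
  refine le_trans (le_of_eq ?_) (hP p hcls hPp n hn)
  have h2 : (1 - ε) * J = 2 * c := by
    rw [hε]
    field_simp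
    ring
  rw [← hJ, h2]
  field_simp

end Pool.Agent.Results.MP_79fcf0_nt.TorsionProgressions
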